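import Pool.Agent.H173R3.HS.Asm
import Pool.Agent.H173R3.HS.T1
import Pool.Agent.H173R3.HS.T2
import Pool.Agent.H173R3.HS.T3
import Pool.Agent.H173R3.HS.T4
import Pool.Agent.H173R3.HS.T5
import Pool.Agent.H173R3.HS.T6
import Pool.Agent.H173R3.HS.T7
import Pool.Agent.H173R3.HS.T8

/-!
# Few hyperelliptic curves have a large minimal discriminant

For every genus `g ≥ 1` and every real `κ > 0` the number of the hyperelliptic curves
`y ^ 2 = x ^ (2 g + 1) + a_(2g) x ^ (2 g) + ... + a_0` of height at most `H` for which the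
inequality `Δ_C ≤ M_C ^ κ` between the minimal discriminant and the product of the primes of bad
reduction fails is at most `A H ^ (2 g (2 g + 1) / κ - (g + 1) + ε)` times their total number.
-/

set_option autoImplicit false

namespace Pool.Agent.Results.MP_ca2859_nt.FewExceptions

open Polynomial Pool.Agent.H173R3.HS

/-- The polynomial `x ^ (2 g + 1) + a_(2g) x ^ (2 g) + ... + a_0` over the rationals. -/
noncomputable def curvePoly (g : ℕ) (a : Fin (2 * g + 1) → ℤ) : ℚ[X] :=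
  (poly a).map (Int.castRingHom ℚ)

/-- The curves `y ^ 2 = x ^ (2 g + 1) + ... + a_0` of height at most `H`: `|a_i| ≤ H ^ (2g+1-i)`. -/
def Box (g H : ℕ) : Set (Fin (2 * g + 1) → ℤ) :=
  {a | ∀ i, |a i| ≤ (H : ℤ) ^ (2 * g + 1 - (i : ℕ))}

/-- The equation `y ^ 2 = curvePoly g a` defines a curve of genus `g` whose minimal discriminant
is at most the power with exponent `κ` of the product of its primes of bad reduction. -/
def Good (g : ℕ) (κ : ℝ) (a : Fin (2 * g + 1) → ℤ) : Prop :=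
  (poly a).discr ≠ 0 ∧ (minDisc g (curvePoly g a) : ℝ) ≤ (badProd g (curvePoly g a) : ℝ) ^ κ

/-- For every `g ≥ 1`, `κ > 0` and `ε > 0` there is `A` such that for all `H ≥ 1` at most
`A H ^ (2 g (2 g + 1) / κ - (g + 1) + ε) #Box` members of `Box g H` are not good. -/
theorem result (g : ℕ) (hg : 1 ≤ g) (κ : ℝ) (hκ : 0 < κ) (ε : ℝ) (hε : 0 < ε) :
    ∃ A : ℝ, ∀ H : ℕ, 1 ≤ H → (Box g H).Finite ∧
      ({a ∈ Box g H | ¬ Good g κ a}.ncard : ℝ) ≤
        A * (H : ℝ) ^ (2 * g * (2 * g + 1) / κ - (g + 1) + ε) * ((Box g H).ncard : ℝ) := by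
  obtain ⟨A, hA⟩ := main t4 t5 t6 t7 (t8 (t3 t1 (t2 t1))) g hg κ hκ ε hε
  refine ⟨A, fun H hH => ?_⟩
  have hbox : Box g H = ↑(boxF (2 * g + 1) (2 * g + 1) H) := by
    ext a
    rw [Finset.mem_coe, mem_boxF]
    rfl
  refine ⟨by rw [hbox]; exact Finset.finite_toSet _, ?_⟩
  have h := (hA H hH {a ∈ Box g H | ¬ Good g κ a} ?_).2
  · refine h.trans (le_of_eq ?_)
    rw [hbox, Set.ncard_coe_finset]
  · rintro a ⟨h1, h2⟩
    refine ⟨mem_boxF.2 h1, fun h0 h3 => h2 ⟨h0, h3⟩⟩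

end Pool.Agent.Results.MP_ca2859_nt.FewExceptions
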